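import Pool.Agent.MP_a3b544_ag.Lower
import Pool.Agent.MP_a3b544_ag.Upper

/-!
# The intrinsic diameter of smooth surfaces of degree `d` in `ℂP³` grows linearly in `d`
-/

set_option autoImplicit false
open scoped ENNReal

namespace Pool.Agent.Results.MP_a3b544_ag.Growth

/-- **Main result.**  For every `d ≥ 1` the supremum `D(d)` of the intrinsic diameters of the
smooth surfaces of degree `d` in `ℂP³` lies between `(d - 3) / 24` and `1280000 d`: it is not
bounded, and its order of growth is exactly linear. -/
theorem result : ∀ d : ℕ, 1 ≤ d →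
    ENNReal.ofReal (((d : ℝ) - 3) / 24) ≤ DD d ∧ DD d ≤ ENNReal.ofReal (1280000 * (d : ℝ)) :=
  fun d hd => ⟨DD_lower d, DD_upper hd⟩

end Pool.Agent.Results.MP_a3b544_ag.Growth
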